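import Mathlib

set_option autoImplicit false

/-!
One crossing comparison: a function `f = f0 exp (-v)` whose exponent satisfies that
`v t / t ^ (3/2)` is nondecreasing, against `f0 exp (-lam t^(3/2))` with the same integral.
-/

namespace Pool.Agent.Helper55.GR

open Real MeasureTheory Set

/-- One crossing and equal integrals: increasing kernels have smaller integrals. -/
theorem cross55 {f g k : ℝ → ℝ} (hf : IntegrableOn f (Ioi 0)) (hg : IntegrableOn g (Ioi 0))
    (hkf : IntegrableOn (fun t => k t * f t) (Ioi 0))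
    (hkg : IntegrableOn (fun t => k t * g t) (Ioi 0))
    (hint : ∫ t in Ioi (0 : ℝ), f t = ∫ t in Ioi (0 : ℝ), g t)
    (hk : ∀ s t : ℝ, 0 < s → s ≤ t → k s ≤ k t) (t0 : ℝ) (ht0 : 0 < t0)
    (h1 : ∀ t, 0 < t → t < t0 → g t ≤ f t) (h2 : ∀ t, t0 < t → f t ≤ g t) :
    ∫ t in Ioi (0 : ℝ), k t * f t ≤ ∫ t in Ioi (0 : ℝ), k t * g t := by
  have hc : ∫ t in Ioi (0 : ℝ), (k t - k t0) * (f t - g t) ≤ 0 := by
    apply setIntegral_nonpos measurableSet_Ioi
    intro t ht
    have ht : 0 < t := ht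
    rcases lt_trichotomy t t0 with h | h | h
    · have := hk t t0 ht h.le
      have := h1 t ht h
      nlinarith
    · subst h; simp
    · have := hk t0 t ht0 h.le
      have := h2 t h
      nlinarith
  have he : (fun t => (k t - k t0) * (f t - g t))
      = fun t => (k t * f t - k t * g t) - (k t0 * f t - k t0 * g t) := by
    funext t; ring
  rw [he] at hc
  have hi1 : IntegrableOn (fun t => k t * f t - k t * g t) (Ioi 0) := hkf.sub hkg
  have hi2 : IntegrableOn (fun t => k t0 * f t - k t0 * g t) (Ioi 0) :=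
    (hf.const_mul _).sub (hg.const_mul _)
  rw [integral_sub hi1 hi2, integral_sub hkf hkg,
    integral_sub (hf.const_mul _) (hg.const_mul _), integral_const_mul, integral_const_mul,
    hint] at hc
  linarith

/-- Moment formula. -/
theorem mom55 {b : ℝ} (hb : 0 < b) {q : ℝ} (hq : -1 < q) :
    ∫ t in Ioi (0 : ℝ), t ^ q * exp (-b * t ^ (3 / 2 : ℝ))
      = b ^ (-(q + 1) / (3 / 2)) * (1 / (3 / 2)) * Gamma ((q + 1) / (3 / 2)) :=
  integral_rpow_mul_exp_neg_mul_rpow (by norm_num) hq hb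

theorem momI55 {b : ℝ} (hb : 0 < b) {q : ℝ} (hq : -1 < q) :
    IntegrableOn (fun t : ℝ => t ^ q * exp (-b * t ^ (3 / 2 : ℝ))) (Ioi 0) :=
  integrableOn_rpow_mul_exp_neg_mul_rpow hq (by norm_num) hb

/-- Comparison with the extremal density, general increasing kernel. -/
theorem star55 {f k : ℝ → ℝ} {f0 lam : ℝ} (hf0 : 0 < f0) (_hlam : 0 < lam)
    (hpos : ∀ t, 0 < t → 0 < f t)
    (hstar : ∀ s t : ℝ, 0 < s → s ≤ t →
      (log f0 - log (f s)) / s ^ (3 / 2 : ℝ) ≤ (log f0 - log (f t)) / t ^ (3 / 2 : ℝ))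
    (hf : IntegrableOn f (Ioi 0))
    (hg : IntegrableOn (fun t => f0 * exp (-lam * t ^ (3 / 2 : ℝ))) (Ioi 0))
    (hkf : IntegrableOn (fun t => k t * f t) (Ioi 0))
    (hkg : IntegrableOn (fun t => k t * (f0 * exp (-lam * t ^ (3 / 2 : ℝ)))) (Ioi 0))
    (hint : ∫ t in Ioi (0 : ℝ), f t = ∫ t in Ioi (0 : ℝ), f0 * exp (-lam * t ^ (3 / 2 : ℝ)))
    (hk : ∀ s t : ℝ, 0 < s → s ≤ t → k s ≤ k t) :
    ∫ t in Ioi (0 : ℝ), k t * f t
      ≤ ∫ t in Ioi (0 : ℝ), k t * (f0 * exp (-lam * t ^ (3 / 2 : ℝ))) := by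
  set g : ℝ → ℝ := fun t => f0 * exp (-lam * t ^ (3 / 2 : ℝ)) with hgdef
  set V : ℝ → ℝ := fun t => (log f0 - log (f t)) / t ^ (3 / 2 : ℝ) with hVdef
  -- comparison
  have hle : ∀ t, 0 < t → V t ≤ lam → g t ≤ f t := by
    intro t ht hV
    have ht' : 0 < t ^ (3 / 2 : ℝ) := rpow_pos_of_pos ht _
    have h1 : log f0 - log (f t) ≤ lam * t ^ (3 / 2 : ℝ) := by
      rwa [hVdef, div_le_iff₀ ht'] at hV
    have h2 : log (g t) ≤ log (f t) := by
      rw [hgdef]
      simp only
      rw [log_mul hf0.ne' (exp_pos _).ne', log_exp]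
      linarith
    exact (log_le_log_iff (by positivity) (hpos t ht)).1 h2
  have hge : ∀ t, 0 < t → lam ≤ V t → f t ≤ g t := by
    intro t ht hV
    have ht' : 0 < t ^ (3 / 2 : ℝ) := rpow_pos_of_pos ht _
    have h1 : lam * t ^ (3 / 2 : ℝ) ≤ log f0 - log (f t) := by
      rwa [hVdef, le_div_iff₀ ht'] at hV
    have h2 : log (f t) ≤ log (g t) := by
      rw [hgdef]
      simp only
      rw [log_mul hf0.ne' (exp_pos _).ne', log_exp]
      linarith
    exact (log_le_log_iff (hpos t ht) (by positivity)).1 h2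
  -- almost everywhere equal functions
  have hae : (∀ t, 0 < t → f t ≤ g t) ∨ (∀ t, 0 < t → g t ≤ f t) →
      ∫ t in Ioi (0 : ℝ), k t * f t ≤ ∫ t in Ioi (0 : ℝ), k t * g t := by
    intro h
    have hz : ∫ t in Ioi (0 : ℝ), (f t - g t) = 0 := by
      rw [integral_sub hf hg, hint, sub_self]
    have hz' : ∫ t in Ioi (0 : ℝ), (g t - f t) = 0 := by
      rw [integral_sub hg hf, hint, sub_self]
    have hEq : f =ᵐ[volume.restrict (Ioi 0)] g := by
      rcases h with h | h
      · have h3 := (setIntegral_eq_zero_iff_of_nonneg_ae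
          (s := Ioi (0 : ℝ)) (f := fun t => g t - f t) (μ := volume) ?_ (hg.sub hf)).1 hz'
        · filter_upwards [h3] with t ht
          have : g t - f t = 0 := ht
          linarith
        · filter_upwards [ae_restrict_mem measurableSet_Ioi] with t ht
          have := h t ht
          simp only [Pi.zero_apply]
          linarith
      · have h3 := (setIntegral_eq_zero_iff_of_nonneg_ae
          (s := Ioi (0 : ℝ)) (f := fun t => f t - g t) (μ := volume) ?_ (hf.sub hg)).1 hz
        · filter_upwards [h3] with t ht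
          have : f t - g t = 0 := ht
          linarith
        · filter_upwards [ae_restrict_mem measurableSet_Ioi] with t ht
          have := h t ht
          simp only [Pi.zero_apply]
          linarith
    apply le_of_eq
    apply integral_congr_ae
    filter_upwards [hEq] with t ht
    rw [ht]
  by_cases hA : ∀ t, 0 < t → lam ≤ V t
  · exact hae (Or.inl fun t ht => hge t ht (hA t ht))
  by_cases hB : ∀ t, 0 < t → V t ≤ lam
  · exact hae (Or.inr fun t ht => hle t ht (hB t ht))
  push Not at hA hB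
  obtain ⟨a, ha, hVa⟩ := hA
  obtain ⟨b, hb, hVb⟩ := hB
  -- the set where V ≤ lam
  set S : Set ℝ := {t | 0 < t ∧ V t ≤ lam} with hSdef
  have haS : a ∈ S := ⟨ha, hVa.le⟩
  have hbd : ∀ t ∈ S, t ≤ b := by
    intro t ht
    by_contra hc
    push Not at hc
    have := hstar b t hb hc.le
    have h2 : V t ≤ lam := ht.2
    have h3 : V b ≤ V t := this
    linarith
  have hBdd : BddAbove S := ⟨b, hbd⟩
  set t0 := sSup S with ht0def
  have hat0 : a ≤ t0 := le_csSup hBdd haS
  have ht0 : 0 < t0 := lt_of_lt_of_le ha hat0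
  refine cross55 hf hg hkf hkg hint hk t0 ht0 ?_ ?_
  · intro t ht htt
    obtain ⟨s, hs, hts⟩ := exists_lt_of_lt_csSup ⟨a, haS⟩ htt
    refine hle t ht ?_
    have h1 : V t ≤ V s := hstar t s ht hts.le
    have h2 : V s ≤ lam := hs.2
    linarith
  · intro t htt
    have ht : 0 < t := ht0.trans htt
    refine hge t ht ?_
    by_contra hc
    push Not at hc
    have : t ≤ t0 := le_csSup hBdd ⟨ht, hc.le⟩
    linarith

end Pool.Agent.Helper55.GR
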