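import Mathlib

set_option autoImplicit false

/-!
A numerical bound: `Γ(4/3) ≥ 1.0693 Γ(5/3)²`.
-/

namespace Pool.Agent.Helper55.GR

open Real

theorem gprod55 (n : ℕ) :
    Gamma ((n : ℝ) + 5 / 3) = Gamma (5 / 3) * ∏ k ∈ Finset.range n, (5 / 3 + (k : ℝ)) := by
  induction n with
  | zero => simp
  | succ n ih =>
    rw [Finset.prod_range_succ, ← mul_assoc, ← ih]
    have h1 : ((n + 1 : ℕ) : ℝ) + 5 / 3 = ((n : ℝ) + 5 / 3) + 1 := by push_cast; ring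
    rw [h1, Gamma_add_one (by positivity)]
    ring

theorem glog55 (n : ℕ) :
    Gamma ((n : ℝ) + 5 / 3) ^ 3 ≤ (n.factorial : ℝ) * ((n + 1).factorial : ℝ) ^ 2 := by
  have h := Gamma_mul_add_mul_le_rpow_Gamma_mul_rpow_Gamma (s := (n : ℝ) + 1)
    (t := ((n + 1 : ℕ) : ℝ) + 1) (a := 1 / 3) (b := 2 / 3) (by positivity) (by positivity)
    (by norm_num) (by norm_num) (by norm_num)
  have h1 : (1 / 3 : ℝ) * ((n : ℝ) + 1) + 2 / 3 * (((n + 1 : ℕ) : ℝ) + 1) = (n : ℝ) + 5 / 3 := by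
    push_cast; ring
  rw [h1, Gamma_nat_eq_factorial, Gamma_nat_eq_factorial] at h
  have h0 : 0 ≤ Gamma ((n : ℝ) + 5 / 3) := (Gamma_pos_of_pos (by positivity)).le
  have hf : (0 : ℝ) ≤ (n.factorial : ℝ) := by positivity
  have hf1 : (0 : ℝ) ≤ ((n + 1).factorial : ℝ) := by positivity
  have h2 : Gamma ((n : ℝ) + 5 / 3) ^ 3
      ≤ ((n.factorial : ℝ) ^ (1 / 3 : ℝ) * ((n + 1).factorial : ℝ) ^ (2 / 3 : ℝ)) ^ 3 := by
    gcongr
  refine h2.trans (le_of_eq ?_)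
  rw [mul_pow, ← rpow_natCast, ← rpow_mul hf, ← rpow_natCast, ← rpow_mul hf1]
  norm_num

theorem g35_55 : Gamma (4 / 3 : ℝ) * Gamma (5 / 3) = 4 * π / (9 * √3) := by
  have h1 : Gamma (4 / 3 : ℝ) = 1 / 3 * Gamma (1 / 3) := by
    have := Gamma_add_one (s := (1 / 3 : ℝ)) (by norm_num)
    rw [← this]; norm_num
  have h2 : Gamma (5 / 3 : ℝ) = 2 / 3 * Gamma (2 / 3) := by
    have := Gamma_add_one (s := (2 / 3 : ℝ)) (by norm_num)
    rw [← this]; norm_num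
  have h3 := Gamma_mul_Gamma_one_sub (1 / 3 : ℝ)
  have h4 : π * (1 / 3 : ℝ) = π / 3 := by ring
  rw [h4, sin_pi_div_three] at h3
  have h5 : (1 : ℝ) - 1 / 3 = 2 / 3 := by norm_num
  rw [h5] at h3
  rw [h1, h2]
  calc 1 / 3 * Gamma (1 / 3 : ℝ) * (2 / 3 * Gamma (2 / 3))
      = 2 / 9 * (Gamma (1 / 3) * Gamma (2 / 3)) := by ring
    _ = 2 / 9 * (π / (√3 / 2)) := by rw [h3]
    _ = 4 * π / (9 * √3) := by
      have : √3 ≠ 0 := by positivity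
      field_simp
      ring

/-- The numerical bound. -/
theorem gam3_55 : (1.0693 : ℝ) * Gamma (5 / 3) ^ 2 ≤ Gamma (4 / 3) := by
  have hg : 0 < Gamma (5 / 3 : ℝ) := Gamma_pos_of_pos (by norm_num)
  have h1 := glog55 14
  rw [gprod55 14, mul_pow] at h1
  have hp : (∏ k ∈ Finset.range 14, (5 / 3 + (k : ℝ))) ^ 3
      * 0.7528 ≥ ((14 : ℕ).factorial : ℝ) * ((14 + 1 : ℕ).factorial : ℝ) ^ 2 := by
    simp only [Finset.prod_range_succ, Finset.prod_range_zero]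
    norm_num [Nat.factorial]
  have hP : 0 < (∏ k ∈ Finset.range 14, (5 / 3 + (k : ℝ))) ^ 3 := by positivity
  have h2 : Gamma (5 / 3 : ℝ) ^ 3 ≤ 0.7528 := by
    by_contra hc
    push Not at hc
    have : 0.7528 * (∏ k ∈ Finset.range 14, (5 / 3 + (k : ℝ))) ^ 3
        < Gamma (5 / 3 : ℝ) ^ 3 * (∏ k ∈ Finset.range 14, (5 / 3 + (k : ℝ))) ^ 3 :=
      mul_lt_mul_of_pos_right hc hP
    linarith
  have h3 := g35_55
  have h4 : (1.0693 : ℝ) * 0.7528 ≤ 4 * π / (9 * √3) := by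
    have hs : √3 ≤ 1.7321 := by
      rw [sqrt_le_left (by norm_num)]; norm_num
    have hs0 : 0 < √3 := by positivity
    rw [le_div_iff₀ (by positivity)]
    have hpi := pi_gt_d4
    nlinarith
  have h5 : (1.0693 : ℝ) * Gamma (5 / 3) ^ 2 * Gamma (5 / 3) ≤ Gamma (4 / 3) * Gamma (5 / 3) := by
    rw [h3]
    calc (1.0693 : ℝ) * Gamma (5 / 3) ^ 2 * Gamma (5 / 3) = 1.0693 * Gamma (5 / 3) ^ 3 := by ring
      _ ≤ 1.0693 * 0.7528 := by gcongr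
      _ ≤ _ := h4
  exact le_of_mul_le_mul_right h5 hg

end Pool.Agent.Helper55.GR
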