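import Mathlib

set_option autoImplicit false

/-!
Finite mixtures of centred Gaussians on the half line: `mf`, `mg`, `my = mg / mf`,
`mw = 4 t^2 mg = - 2 t mf'`.
-/

namespace Pool.Agent.Helper55.GR

open Real MeasureTheory Set

variable {ι : Type*} [Fintype ι]

/-- The mixture. -/
noncomputable def mf (a T : ι → ℝ) (t : ℝ) : ℝ := ∑ i, a i * exp (-(T i * t ^ 2))

/-- The weighted mixture. -/
noncomputable def mg (a T : ι → ℝ) (t : ℝ) : ℝ := ∑ i, a i * T i * exp (-(T i * t ^ 2))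

/-- The local parameter. -/
noncomputable def my (a T : ι → ℝ) (t : ℝ) : ℝ := mg a T t / mf a T t

/-- The density `- 2 t f'`. -/
noncomputable def mw (a T : ι → ℝ) (t : ℝ) : ℝ := 4 * t ^ 2 * mg a T t

theorem mf_pos55 [Nonempty ι] {a T : ι → ℝ} (ha : ∀ i, 0 < a i) (t : ℝ) : 0 < mf a T t :=
  Finset.sum_pos (fun i _ => mul_pos (ha i) (exp_pos _)) Finset.univ_nonempty

theorem mg_pos55 [Nonempty ι] {a T : ι → ℝ} (ha : ∀ i, 0 < a i) (hT : ∀ i, 0 < T i) (t : ℝ) :
    0 < mg a T t :=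
  Finset.sum_pos (fun i _ => mul_pos (mul_pos (ha i) (hT i)) (exp_pos _)) Finset.univ_nonempty

theorem my_pos55 [Nonempty ι] {a T : ι → ℝ} (ha : ∀ i, 0 < a i) (hT : ∀ i, 0 < T i) (t : ℝ) :
    0 < my a T t := div_pos (mg_pos55 ha hT t) (mf_pos55 ha t)

theorem mf_deriv55 (a T : ι → ℝ) (t : ℝ) :
    HasDerivAt (mf a T) (-(2 * t * mg a T t)) t := by
  have h : HasDerivAt (fun t => ∑ i, a i * exp (-(T i * t ^ 2)))
      (∑ i, a i * (exp (-(T i * t ^ 2)) * (-(T i * (2 * t))))) t := by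
    apply HasDerivAt.fun_sum
    intro i _
    have h1 : HasDerivAt (fun t : ℝ => -(T i * t ^ 2)) (-(T i * (2 * t))) t := by
      have := ((hasDerivAt_pow 2 t).const_mul (T i)).fun_neg
      simpa using this
    exact (h1.exp).const_mul (a i)
  have he : (∑ i, a i * (exp (-(T i * t ^ 2)) * (-(T i * (2 * t))))) = -(2 * t * mg a T t) := by
    rw [mg, Finset.mul_sum, ← Finset.sum_neg_distrib]
    apply Finset.sum_congr rfl
    intro i _
    ring
  rw [he] at h
  exact h

theorem mg_cont55 (a T : ι → ℝ) : Continuous (mg a T) := by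
  unfold mg
  fun_prop

theorem mf_cont55 (a T : ι → ℝ) : Continuous (mf a T) := by
  unfold mf
  fun_prop

theorem mw_cont55 (a T : ι → ℝ) : Continuous (mw a T) := by
  unfold mw
  exact (by fun_prop : Continuous fun t : ℝ => 4 * t ^ 2).mul (mg_cont55 a T)

theorem mw_nn55 [Nonempty ι] {a T : ι → ℝ} (ha : ∀ i, 0 < a i) (hT : ∀ i, 0 < T i) (s : ℝ) :
    0 ≤ mw a T s := by
  have := (mg_pos55 ha hT s).le
  unfold mw
  positivity

/-- `my` is nonincreasing in `t > 0`. -/
theorem my_anti55 [Nonempty ι] {a T : ι → ℝ} (ha : ∀ i, 0 < a i) {s t : ℝ} (hs : 0 ≤ s)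
    (hst : s ≤ t) : my a T t ≤ my a T s := by
  unfold my
  rw [div_le_div_iff₀ (mf_pos55 ha t) (mf_pos55 ha s)]
  have e1 : mg a T t * mf a T s
      = ∑ i, ∑ j, a i * a j * T i * exp (-(T i * t ^ 2) - (T j * s ^ 2)) := by
    rw [mg, mf, Finset.sum_mul_sum]
    refine Finset.sum_congr rfl fun i _ => Finset.sum_congr rfl fun j _ => ?_
    rw [show -(T i * t ^ 2) - (T j * s ^ 2) = -(T i * t ^ 2) + -(T j * s ^ 2) by ring, exp_add]
    ring
  have e2 : mg a T s * mf a T t
      = ∑ i, ∑ j, a i * a j * T i * exp (-(T i * s ^ 2) - (T j * t ^ 2)) := by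
    rw [mg, mf, Finset.sum_mul_sum]
    refine Finset.sum_congr rfl fun i _ => Finset.sum_congr rfl fun j _ => ?_
    rw [show -(T i * s ^ 2) - (T j * t ^ 2) = -(T i * s ^ 2) + -(T j * t ^ 2) by ring, exp_add]
    ring
  have e1' : mg a T t * mf a T s
      = ∑ i, ∑ j, a i * a j * T j * exp (-(T j * t ^ 2) - (T i * s ^ 2)) := by
    rw [e1, Finset.sum_comm]
    refine Finset.sum_congr rfl fun i _ => Finset.sum_congr rfl fun j _ => ?_
    ring
  have e2' : mg a T s * mf a T t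
      = ∑ i, ∑ j, a i * a j * T j * exp (-(T j * s ^ 2) - (T i * t ^ 2)) := by
    rw [e2, Finset.sum_comm]
    refine Finset.sum_congr rfl fun i _ => Finset.sum_congr rfl fun j _ => ?_
    ring
  have hsum : mg a T t * mf a T s + mg a T t * mf a T s
      ≤ mg a T s * mf a T t + mg a T s * mf a T t := by
    nth_rewrite 1 [e1]
    nth_rewrite 1 [e1']
    nth_rewrite 1 [e2]
    nth_rewrite 1 [e2']
    rw [← Finset.sum_add_distrib, ← Finset.sum_add_distrib]
    refine Finset.sum_le_sum fun i _ => ?_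
    rw [← Finset.sum_add_distrib, ← Finset.sum_add_distrib]
    refine Finset.sum_le_sum fun j _ => ?_
    have hq : 0 ≤ t ^ 2 - s ^ 2 := by nlinarith
    have haa : 0 < a i * a j := mul_pos (ha i) (ha j)
    have key : 0 ≤ (T i - T j) * (exp (-(T i * s ^ 2) - (T j * t ^ 2))
        - exp (-(T j * s ^ 2) - (T i * t ^ 2))) := by
      rcases le_total (T j) (T i) with h | h
      · apply mul_nonneg (by linarith)
        have : exp (-(T j * s ^ 2) - (T i * t ^ 2)) ≤ exp (-(T i * s ^ 2) - (T j * t ^ 2)) := by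
          apply exp_le_exp.2
          nlinarith
        linarith
      · apply mul_nonneg_of_nonpos_of_nonpos (by linarith)
        have : exp (-(T i * s ^ 2) - (T j * t ^ 2)) ≤ exp (-(T j * s ^ 2) - (T i * t ^ 2)) := by
          apply exp_le_exp.2
          nlinarith
        linarith
    have r1 : exp (-(T i * t ^ 2) - (T j * s ^ 2)) = exp (-(T j * s ^ 2) - (T i * t ^ 2)) := by
      congr 1; ring
    have r2 : exp (-(T j * t ^ 2) - (T i * s ^ 2)) = exp (-(T i * s ^ 2) - (T j * t ^ 2)) := by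
      congr 1; ring
    rw [r1, r2]
    nlinarith [mul_nonneg haa.le key]
  linarith

theorem log_mf_deriv55 [Nonempty ι] {a T : ι → ℝ} (ha : ∀ i, 0 < a i) (t : ℝ) :
    HasDerivAt (fun t => -log (mf a T t)) (2 * t * my a T t) t := by
  have h := ((mf_deriv55 a T t).log (mf_pos55 ha t).ne').neg
  have : -(-(2 * t * mg a T t) / mf a T t) = 2 * t * my a T t := by
    rw [my]; ring
  rw [this] at h
  exact h

/-- Star shape from the monotonicity of `√t my t`. -/
theorem starlog55 [Nonempty ι] {a T : ι → ℝ} (ha : ∀ i, 0 < a i)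
    (hmon : ∀ s t : ℝ, 0 < s → s ≤ t →
      s ^ (1 / 2 : ℝ) * my a T s ≤ t ^ (1 / 2 : ℝ) * my a T t)
    {s t : ℝ} (hs : 0 < s) (hst : s ≤ t) :
    (log (mf a T 0) - log (mf a T s)) / s ^ (3 / 2 : ℝ)
      ≤ (log (mf a T 0) - log (mf a T t)) / t ^ (3 / 2 : ℝ) := by
  set U : ℝ → ℝ := fun t => log (mf a T 0) - log (mf a T t) with hU
  have hUd : ∀ t, HasDerivAt U (2 * t * my a T t) t := by
    intro t
    have := (log_mf_deriv55 (T := T) ha t).const_add (log (mf a T 0))
    have he : (fun t => log (mf a T 0) + -log (mf a T t)) = U := by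
      funext t; rw [hU]; ring
    rw [he] at this
    exact this
  have hU0 : U 0 = 0 := by simp [hU]
  -- bound of U by its derivative
  have hb : ∀ t, 0 < t → U t ≤ (2 / 3) * (t * (2 * t * my a T t)) := by
    intro t ht
    have hpd : ∀ x, 0 < x → HasDerivAt (fun x : ℝ => x ^ (3 / 2 : ℝ)) ((3 / 2) * x ^ (1 / 2 : ℝ)) x := by
      intro x hx
      have := Real.hasDerivAt_rpow_const (x := x) (p := (3 / 2 : ℝ)) (Or.inl hx.ne')
      have h2 : (3 / 2 : ℝ) - 1 = 1 / 2 := by norm_num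
      rw [h2] at this
      exact this
    obtain ⟨c, hc, hc2⟩ := exists_ratio_hasDerivAt_eq_ratio_slope U (fun t => 2 * t * my a T t) ht
      (fun x _ => (hUd x).continuousAt.continuousWithinAt) (fun x _ => hUd x)
      (fun x : ℝ => x ^ (3 / 2 : ℝ)) (fun x => (3 / 2) * x ^ (1 / 2 : ℝ))
      (fun x _ => (Real.continuousAt_rpow_const x (3 / 2) (Or.inr (by norm_num))).continuousWithinAt)
      (fun x hx => hpd x hx.1)
    have hz : (0 : ℝ) ^ (3 / 2 : ℝ) = 0 := zero_rpow (by norm_num)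
    simp only [hU0, hz, sub_zero] at hc2
    -- hc2 : t^(3/2) * (2 c my c) = U t * ((3/2) * c^(1/2))
    have hc0 : 0 < c := hc.1
    have hct : c ≤ t := hc.2.le
    have hm := hmon c t hc0 hct
    have hch : 0 < c ^ (1 / 2 : ℝ) := rpow_pos_of_pos hc0 _
    have hcc : c = c ^ (1 / 2 : ℝ) * c ^ (1 / 2 : ℝ) := by
      rw [← rpow_add hc0]; norm_num
    have htt : t ^ (3 / 2 : ℝ) * t ^ (1 / 2 : ℝ) = t * t := by
      rw [← rpow_add ht]; norm_num [pow_two]
    have h3 : U t * (3 / 2) = t ^ (3 / 2 : ℝ) * (2 * (c ^ (1 / 2 : ℝ) * my a T c)) := by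
      have h4 : (U t * (3 / 2)) * c ^ (1 / 2 : ℝ)
          = (t ^ (3 / 2 : ℝ) * (2 * (c ^ (1 / 2 : ℝ) * my a T c))) * c ^ (1 / 2 : ℝ) := by
        calc (U t * (3 / 2)) * c ^ (1 / 2 : ℝ) = U t * (3 / 2 * c ^ (1 / 2 : ℝ)) := by ring
          _ = t ^ (3 / 2 : ℝ) * (2 * c * my a T c) := hc2.symm
          _ = t ^ (3 / 2 : ℝ) * (2 * (c ^ (1 / 2 : ℝ) * c ^ (1 / 2 : ℝ)) * my a T c) := by
              rw [← hcc]
          _ = _ := by ring
      exact mul_right_cancel₀ hch.ne' h4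
    have h5 : t ^ (3 / 2 : ℝ) * (2 * (c ^ (1 / 2 : ℝ) * my a T c))
        ≤ t ^ (3 / 2 : ℝ) * (2 * (t ^ (1 / 2 : ℝ) * my a T t)) := by
      have : 0 ≤ t ^ (3 / 2 : ℝ) := (rpow_pos_of_pos ht _).le
      gcongr
    have h6 : t ^ (3 / 2 : ℝ) * (2 * (t ^ (1 / 2 : ℝ) * my a T t)) = 2 * (t * t) * my a T t := by
      rw [← htt]; ring
    nlinarith
  -- monotonicity
  have hmono : MonotoneOn (fun t => U t / t ^ (3 / 2 : ℝ)) (Ioi 0) := by
    apply monotoneOn_of_deriv_nonneg (convex_Ioi 0)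
    · intro x hx
      have hx : 0 < x := hx
      have h1 : ContinuousAt (fun x : ℝ => x ^ (3 / 2 : ℝ)) x :=
        Real.continuousAt_rpow_const x (3 / 2) (Or.inl hx.ne')
      exact ((hUd x).continuousAt.div h1 (rpow_pos_of_pos hx _).ne').continuousWithinAt
    · intro x hx
      rw [interior_Ioi] at hx
      have hx : 0 < x := hx
      have h1 := Real.hasDerivAt_rpow_const (x := x) (p := (3 / 2 : ℝ)) (Or.inl hx.ne')
      exact ((hUd x).div h1 (rpow_pos_of_pos hx _).ne').differentiableAt.differentiableWithinAt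
    · intro x hx
      rw [interior_Ioi] at hx
      have hx : 0 < x := hx
      have h1 := Real.hasDerivAt_rpow_const (x := x) (p := (3 / 2 : ℝ)) (Or.inl hx.ne')
      have h2 := (hUd x).fun_div h1 (rpow_pos_of_pos hx _).ne'
      rw [h2.deriv]
      apply div_nonneg _ (by positivity)
      have h3 : (3 / 2 : ℝ) - 1 = 1 / 2 := by norm_num
      rw [h3]
      have hxx : x ^ (3 / 2 : ℝ) = x * x ^ (1 / 2 : ℝ) := by
        rw [show (3 / 2 : ℝ) = 1 + 1 / 2 by norm_num, rpow_add hx, rpow_one]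
      rw [hxx]
      have hh : 0 < x ^ (1 / 2 : ℝ) := rpow_pos_of_pos hx _
      have := hb x hx
      have h4 : 2 * x * my a T x * (x * x ^ (1 / 2 : ℝ)) - U x * (3 / 2 * x ^ (1 / 2 : ℝ))
          = x ^ (1 / 2 : ℝ) * (x * (2 * x * my a T x) - 3 / 2 * U x) := by ring
      rw [h4]
      apply mul_nonneg hh.le
      linarith
  exact hmono hs (lt_of_lt_of_le hs hst) hst

end Pool.Agent.Helper55.GR
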