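import Pool.Agent.Helper55.GR.Cross
import Pool.Agent.Helper55.GR.Mix
import Pool.Agent.Helper55.GR.GAM3

set_option autoImplicit false

/-!
The bound for two independent copies of the law `mw` when `√t my t` is nondecreasing.
-/

namespace Pool.Agent.Helper55.GR

open Real MeasureTheory Set

/-! ### square roots as powers -/

theorem half55 {t : ℝ} (ht : 0 < t) :
    0 < t ^ (1 / 2 : ℝ) ∧ t = t ^ (1 / 2 : ℝ) * t ^ (1 / 2 : ℝ) ∧
      t ^ (-(1 / 2) : ℝ) = (t ^ (1 / 2 : ℝ))⁻¹ := by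
  refine ⟨rpow_pos_of_pos ht _, ?_, rpow_neg ht.le _⟩
  rw [← rpow_add ht]; norm_num

/-! ### the kernel -/

/-- The kernel. -/
noncomputable def kk (s t : ℝ) : ℝ :=
  s⁻¹ * t ^ (1 : ℝ) - s ^ (1 / 2 : ℝ) * t ^ (-(1 / 2) : ℝ)
    - 3 * s ^ (-(1 / 2) : ℝ) * t ^ (1 / 2 : ℝ)

theorem amgm55 {X Y : ℝ} (hX : 0 < X) (hY : 0 < Y) : 3 * (X * Y) ≤ X * Y * (X + Y) + 1 := by
  have hP : 0 < X * Y := mul_pos hX hY
  by_cases h : 3 ≤ X + Y
  · nlinarith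
  · push Not at h
    have h1 : X * Y ≤ ((X + Y) / 2) ^ 2 := by nlinarith [sq_nonneg (X - Y)]
    have h2 : X * Y * (3 - (X + Y)) ≤ ((X + Y) / 2) ^ 2 * (3 - (X + Y)) :=
      mul_le_mul_of_nonneg_right h1 (by linarith)
    have h3 : ((X + Y) / 2) ^ 2 * (3 - (X + Y)) ≤ 1 := by
      have h4 : 0 ≤ ((X + Y) / 2 - 1) ^ 2 * (2 * ((X + Y) / 2) + 1) := by positivity
      nlinarith
    nlinarith

theorem kk_mono55 {s : ℝ} (hs : 0 < s) {t1 t2 : ℝ} (h1 : 0 < t1) (h12 : t1 ≤ t2) :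
    kk s t1 ≤ kk s t2 := by
  have h2 : 0 < t2 := h1.trans_le h12
  obtain ⟨hc, hcc, hcm⟩ := half55 hs
  obtain ⟨hx, hxx, hxm⟩ := half55 h1
  obtain ⟨hy, hyy, hym⟩ := half55 h2
  have hxy : t1 ^ (1 / 2 : ℝ) ≤ t2 ^ (1 / 2 : ℝ) := rpow_le_rpow h1.le h12 (by norm_num)
  unfold kk
  rw [rpow_one, rpow_one, hcm, hxm, hym]
  set c := s ^ (1 / 2 : ℝ)
  set x := t1 ^ (1 / 2 : ℝ)
  set y := t2 ^ (1 / 2 : ℝ)
  rw [hcc, hxx, hyy]
  have hkey := amgm55 (div_pos hx hc) (div_pos hy hc)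
  have h3 : 0 ≤ (y - x) * (c * x * y)⁻¹
      * (c * c * c) * (x / c * (y / c) * (x / c + y / c) + 1 - 3 * (x / c * (y / c))) * c⁻¹ := by
    have : 0 ≤ y - x := by linarith
    have h4 : 0 ≤ x / c * (y / c) * (x / c + y / c) + 1 - 3 * (x / c * (y / c)) := by linarith
    positivity
  have h5 : ((c * c)⁻¹ * (y * y) - c * y⁻¹ - 3 * c⁻¹ * y)
      - ((c * c)⁻¹ * (x * x) - c * x⁻¹ - 3 * c⁻¹ * x)
      = (y - x) * (c * x * y)⁻¹
      * (c * c * c) * (x / c * (y / c) * (x / c + y / c) + 1 - 3 * (x / c * (y / c))) * c⁻¹ := by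
    field_simp
    ring
  linarith

/-! ### moments of a Gaussian -/

theorem gmI55 {T : ℝ} (hT : 0 < T) {q : ℝ} (hq : -1 < q) :
    IntegrableOn (fun t : ℝ => t ^ q * exp (-(T * t ^ 2))) (Ioi 0) := by
  have h := integrableOn_rpow_mul_exp_neg_mul_rpow (p := 2) (s := q) (b := T) hq
    (by norm_num) hT
  refine h.congr_fun (fun t _ => ?_) measurableSet_Ioi
  simp only [rpow_two, neg_mul]

theorem gm55 {T : ℝ} (hT : 0 < T) {q : ℝ} (hq : -1 < q) :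
    ∫ t in Ioi (0 : ℝ), t ^ q * exp (-(T * t ^ 2))
      = T ^ (-(q + 1) / 2) * (1 / 2) * Gamma ((q + 1) / 2) := by
  rw [← integral_rpow_mul_exp_neg_mul_rpow (p := 2) (q := q) (b := T) (by norm_num) hq hT]
  apply setIntegral_congr_fun measurableSet_Ioi
  intro t _
  simp only [rpow_two, neg_mul]

variable {ι : Type*} [Fintype ι]

theorem mfI55 {a T : ι → ℝ} (hT : ∀ i, 0 < T i) {q : ℝ} (hq : -1 < q) :
    IntegrableOn (fun t : ℝ => t ^ q * mf a T t) (Ioi 0) := by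
  have h : IntegrableOn (fun t : ℝ => ∑ i, a i * (t ^ q * exp (-(T i * t ^ 2)))) (Ioi 0) :=
    integrable_finsetSum _ fun i _ => (gmI55 (hT i) hq).const_mul (a i)
  refine h.congr_fun (fun t _ => ?_) measurableSet_Ioi
  simp only [mf, Finset.mul_sum]
  refine Finset.sum_congr rfl fun i _ => ?_
  ring

theorem mfM55 {a T : ι → ℝ} (hT : ∀ i, 0 < T i) {q : ℝ} (hq : -1 < q) :
    ∫ t in Ioi (0 : ℝ), t ^ q * mf a T t
      = ∑ i, a i * (T i ^ (-(q + 1) / 2) * (1 / 2) * Gamma ((q + 1) / 2)) := by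
  have e : ∀ t : ℝ, t ^ q * mf a T t = ∑ i, a i * (t ^ q * exp (-(T i * t ^ 2))) := by
    intro t
    simp only [mf, Finset.mul_sum]
    refine Finset.sum_congr rfl fun i _ => ?_
    ring
  simp only [e]
  rw [integral_finsetSum _ fun i _ => (gmI55 (hT i) hq).const_mul (a i)]
  refine Finset.sum_congr rfl fun i _ => ?_
  rw [integral_const_mul, gm55 (hT i) hq]

theorem mw_eq55 (a T : ι → ℝ) {q t : ℝ} (ht : 0 < t) :
    t ^ q * mw a T t = ∑ i, 4 * a i * T i * (t ^ (q + 2) * exp (-(T i * t ^ 2))) := by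
  rw [mw, mg, rpow_add ht, rpow_two, Finset.mul_sum, Finset.mul_sum]
  refine Finset.sum_congr rfl fun i _ => ?_
  ring

theorem mwI55 {a T : ι → ℝ} (hT : ∀ i, 0 < T i) {q : ℝ} (hq : -3 < q) :
    IntegrableOn (fun t : ℝ => t ^ q * mw a T t) (Ioi 0) := by
  have h : IntegrableOn (fun t : ℝ => ∑ i, 4 * a i * T i * (t ^ (q + 2) * exp (-(T i * t ^ 2))))
      (Ioi 0) :=
    integrable_finsetSum _ fun i _ => (gmI55 (hT i) (by linarith)).const_mul _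
  refine h.congr_fun (fun t ht => ?_) measurableSet_Ioi
  exact (mw_eq55 a T ht).symm

theorem mwM55 {a T : ι → ℝ} (hT : ∀ i, 0 < T i) {q : ℝ} (hq : -1 < q) :
    ∫ t in Ioi (0 : ℝ), t ^ q * mw a T t = 2 * (1 + q) * ∫ t in Ioi (0 : ℝ), t ^ q * mf a T t := by
  rw [setIntegral_congr_fun measurableSet_Ioi
    (fun t (ht : t ∈ Ioi (0 : ℝ)) => mw_eq55 a T (q := q) ht),
    integral_finsetSum _ fun i _ => (gmI55 (hT i) (by linarith : -1 < q + 2)).const_mul _,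
    mfM55 hT hq, Finset.mul_sum]
  refine Finset.sum_congr rfl fun i _ => ?_
  rw [integral_const_mul, gm55 (hT i) (by linarith)]
  have h1 : (q + 2 + 1) / 2 = (q + 1) / 2 + 1 := by ring
  rw [h1, Gamma_add_one (by linarith)]
  have h2 : T i * T i ^ (-(q + 2 + 1) / 2) = T i ^ (-(q + 1) / 2) := by
    nth_rewrite 1 [← rpow_one (T i)]
    rw [← rpow_add (hT i)]
    congr 1
    ring
  rw [← h2]
  ring

theorem mwm55 {a T : ι → ℝ} (hT : ∀ i, 0 < T i) :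
    ∫ t in Ioi (0 : ℝ), t ^ (-1 : ℝ) * mw a T t = 2 * mf a T 0 := by
  rw [setIntegral_congr_fun measurableSet_Ioi
    (fun t (ht : t ∈ Ioi (0 : ℝ)) => mw_eq55 a T (q := -1) ht),
    integral_finsetSum _ fun i _ => (gmI55 (hT i) (by norm_num : (-1 : ℝ) < -1 + 2)).const_mul _,
    mf, Finset.mul_sum]
  refine Finset.sum_congr rfl fun i _ => ?_
  rw [integral_const_mul, gm55 (hT i) (by norm_num)]
  have h1 : ((-1 : ℝ) + 2 + 1) / 2 = 1 := by norm_num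
  have h2 : -((-1 : ℝ) + 2 + 1) / 2 = -1 := by norm_num
  rw [h1, h2, Gamma_one, rpow_neg_one]
  have := (hT i).ne'
  have h3 : exp (-(T i * 0 ^ 2)) = 1 := by simp
  rw [h3]
  field_simp
  ring

/-! ### moments of the extremal function -/

theorem gB55 {c : ℝ} (hc : 0 < c) {q : ℝ} (hq : -1 < q) :
    ∫ t in Ioi (0 : ℝ), t ^ q * exp (-(c ^ 3)⁻¹ * t ^ (3 / 2 : ℝ))
      = c ^ (2 * (q + 1)) * (2 / 3) * Gamma ((q + 1) / (3 / 2)) := by
  rw [mom55 (by positivity) hq]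
  have h1 : ((c ^ 3)⁻¹ : ℝ) ^ (-(q + 1) / (3 / 2)) = c ^ (2 * (q + 1)) := by
    rw [← rpow_natCast c 3, ← rpow_neg hc.le, ← rpow_mul hc.le]
    congr 1
    push_cast
    ring
  rw [h1]
  norm_num

/-- The comparison for all `s`. -/
theorem cmp55 [Nonempty ι] {a T : ι → ℝ} (ha : ∀ i, 0 < a i) (hT : ∀ i, 0 < T i)
    (hmon : ∀ s t : ℝ, 0 < s → s ≤ t →
      s ^ (1 / 2 : ℝ) * my a T s ≤ t ^ (1 / 2 : ℝ) * my a T t)
    {c : ℝ} (hc : 0 < c)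
    (hc2 : ∫ t in Ioi (0 : ℝ), t ^ (0 : ℝ) * mf a T t = mf a T 0 * (c ^ 2 * Gamma (5 / 3)))
    {s : ℝ} (hs : 0 < s) :
    s⁻¹ * (∫ t in Ioi (0 : ℝ), t ^ (1 : ℝ) * mf a T t)
      - s ^ (1 / 2 : ℝ) * (∫ t in Ioi (0 : ℝ), t ^ (-(1 / 2) : ℝ) * mf a T t)
      - 3 * s ^ (-(1 / 2) : ℝ) * (∫ t in Ioi (0 : ℝ), t ^ (1 / 2 : ℝ) * mf a T t)
    ≤ s⁻¹ * (mf a T 0 * (c ^ 4 * (2 / 3) * Gamma (4 / 3)))
      - s ^ (1 / 2 : ℝ) * (mf a T 0 * (c * 2 * Gamma (4 / 3)))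
      - 3 * s ^ (-(1 / 2) : ℝ) * (mf a T 0 * (c ^ 3 * (2 / 3))) := by
  have hf0 : 0 < mf a T 0 := mf_pos55 ha 0
  have hlam : 0 < ((c ^ 3)⁻¹ : ℝ) := by positivity
  set F0 := mf a T 0 with hF0
  set lam := ((c ^ 3)⁻¹ : ℝ) with hlamdef
  have hgI : ∀ q : ℝ, -1 < q →
      IntegrableOn (fun t : ℝ => t ^ q * (F0 * exp (-lam * t ^ (3 / 2 : ℝ)))) (Ioi 0) := by
    intro q hq
    have h0 : IntegrableOn (fun t : ℝ => F0 * (t ^ q * exp (-lam * t ^ (3 / 2 : ℝ)))) (Ioi 0) :=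
      (momI55 hlam hq).const_mul F0
    refine h0.congr_fun (fun t _ => ?_) measurableSet_Ioi
    ring
  have hgM : ∀ q : ℝ, -1 < q →
      ∫ t in Ioi (0 : ℝ), t ^ q * (F0 * exp (-lam * t ^ (3 / 2 : ℝ)))
        = F0 * (c ^ (2 * (q + 1)) * (2 / 3) * Gamma ((q + 1) / (3 / 2))) := by
    intro q hq
    rw [← gB55 hc hq, ← integral_const_mul]
    apply setIntegral_congr_fun measurableSet_Ioi
    intro t _
    simp only
    ring
  have hint1 : IntegrableOn (fun t => mf a T t) (Ioi 0) := by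
    refine (mfI55 (a := a) hT (by norm_num : (-1 : ℝ) < 0)).congr_fun (fun t _ => ?_)
      measurableSet_Ioi
    simp only [rpow_zero, one_mul]
  have hint2 : IntegrableOn (fun t => F0 * exp (-lam * t ^ (3 / 2 : ℝ))) (Ioi 0) := by
    refine (hgI 0 (by norm_num)).congr_fun (fun t _ => ?_) measurableSet_Ioi
    simp only [rpow_zero, one_mul]
  have heq : ∫ t in Ioi (0 : ℝ), mf a T t = ∫ t in Ioi (0 : ℝ), F0 * exp (-lam * t ^ (3 / 2 : ℝ)) := by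
    have e1 := hgM 0 (by norm_num)
    simp only [rpow_zero, one_mul] at e1 hc2
    rw [hc2, e1]
    have h2 : (2 * ((0 : ℝ) + 1)) = ((2 : ℕ) : ℝ) := by norm_num
    have h3 : ((0 : ℝ) + 1) / (3 / 2) = 2 / 3 := by norm_num
    have h4 : Gamma (5 / 3 : ℝ) = 2 / 3 * Gamma (2 / 3) := by
      have := Gamma_add_one (s := (2 / 3 : ℝ)) (by norm_num)
      rw [← this]; norm_num
    rw [h2, h3, rpow_natCast, h4]
    ring
  -- splitting of the kernel integral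
  have hsplit : ∀ h : ℝ → ℝ, (∀ q : ℝ, -1 < q → IntegrableOn (fun t : ℝ => t ^ q * h t) (Ioi 0)) →
      IntegrableOn (fun t => kk s t * h t) (Ioi 0) ∧
      ∫ t in Ioi (0 : ℝ), kk s t * h t
        = s⁻¹ * (∫ t in Ioi (0 : ℝ), t ^ (1 : ℝ) * h t)
          - s ^ (1 / 2 : ℝ) * (∫ t in Ioi (0 : ℝ), t ^ (-(1 / 2) : ℝ) * h t)
          - 3 * s ^ (-(1 / 2) : ℝ) * (∫ t in Ioi (0 : ℝ), t ^ (1 / 2 : ℝ) * h t) := by
    intro h hI
    have i1 := (hI 1 (by norm_num)).const_mul s⁻¹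
    have i2 := (hI (-(1 / 2)) (by norm_num)).const_mul (s ^ (1 / 2 : ℝ))
    have i3 := (hI (1 / 2) (by norm_num)).const_mul (3 * s ^ (-(1 / 2) : ℝ))
    have e : (fun t => kk s t * h t) = fun t => (s⁻¹ * (t ^ (1 : ℝ) * h t)
        - s ^ (1 / 2 : ℝ) * (t ^ (-(1 / 2) : ℝ) * h t))
        - 3 * s ^ (-(1 / 2) : ℝ) * (t ^ (1 / 2 : ℝ) * h t) := by
      funext t
      unfold kk
      ring
    rw [e]
    refine ⟨(i1.sub i2).sub i3, ?_⟩
    have s1 := integral_sub (i1.sub i2) i3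
    have s2 := integral_sub i1 i2
    simp only [Pi.sub_apply] at s1
    rw [s1, s2, integral_const_mul, integral_const_mul, integral_const_mul]
  obtain ⟨hk1, hk2⟩ := hsplit (mf a T) (fun q hq => mfI55 hT hq)
  obtain ⟨hk3, hk4⟩ := hsplit (fun t => F0 * exp (-lam * t ^ (3 / 2 : ℝ))) hgI
  have hmain := star55 (f := mf a T) (k := kk s) (f0 := F0) (lam := lam) hf0 hlam
    (fun t _ => mf_pos55 ha t) (fun u v hu huv => starlog55 ha hmon hu huv)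
    hint1 hint2 hk1 hk3 heq (fun u v hu huv => kk_mono55 hs hu huv)
  rw [hk2, hk4, hgM 1 (by norm_num), hgM (-(1 / 2)) (by norm_num), hgM (1 / 2) (by norm_num)] at hmain
  have p1 : (2 * ((1 : ℝ) + 1)) = ((4 : ℕ) : ℝ) := by norm_num
  have p2 : (2 * (-(1 / 2) + 1 : ℝ)) = 1 := by norm_num
  have p3 : (2 * (1 / 2 + 1 : ℝ)) = ((3 : ℕ) : ℝ) := by norm_num
  have q1 : ((1 : ℝ) + 1) / (3 / 2) = 4 / 3 := by norm_num
  have q2 : (-(1 / 2) + 1 : ℝ) / (3 / 2) = 1 / 3 := by norm_num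
  have q3 : (1 / 2 + 1 : ℝ) / (3 / 2) = 1 := by norm_num
  have h13 : Gamma (4 / 3 : ℝ) = 1 / 3 * Gamma (1 / 3) := by
    have := Gamma_add_one (s := (1 / 3 : ℝ)) (by norm_num)
    rw [← this]; norm_num
  rw [p1, p2, p3, q1, q2, q3, rpow_natCast, rpow_natCast, rpow_one, Gamma_one] at hmain
  have h14 : c * (2 / 3) * Gamma (1 / 3) = c * 2 * Gamma (4 / 3) := by rw [h13]; ring
  rw [h14, mul_one] at hmain
  exact hmain

/-- The moment inequality. -/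
theorem momineq55 [Nonempty ι] {a T : ι → ℝ} (ha : ∀ i, 0 < a i) (hT : ∀ i, 0 < T i)
    (hmon : ∀ s t : ℝ, 0 < s → s ≤ t →
      s ^ (1 / 2 : ℝ) * my a T s ≤ t ^ (1 / 2 : ℝ) * my a T t) :
    2 * (∫ t in Ioi (0 : ℝ), t ^ (1 : ℝ) * mw a T t) * (∫ t in Ioi (0 : ℝ), t ^ (-1 : ℝ) * mw a T t)
      + 6 * (∫ t in Ioi (0 : ℝ), mw a T t) ^ 2
      - 8 * (∫ t in Ioi (0 : ℝ), t ^ (1 / 2 : ℝ) * mw a T t)
        * (∫ t in Ioi (0 : ℝ), t ^ (-(1 / 2) : ℝ) * mw a T t)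
    ≤ (6 - 16 / 3 * (Gamma (4 / 3) / Gamma (5 / 3) ^ 2)) * (∫ t in Ioi (0 : ℝ), mw a T t) ^ 2 := by
  have hf0 : 0 < mf a T 0 := mf_pos55 ha 0
  have hG5 : 0 < Gamma (5 / 3 : ℝ) := Gamma_pos_of_pos (by norm_num)
  have hG4 : 0 < Gamma (4 / 3 : ℝ) := Gamma_pos_of_pos (by norm_num)
  set F0 := mf a T 0 with hF0
  set A0 := ∫ t in Ioi (0 : ℝ), t ^ (0 : ℝ) * mf a T t with hA0
  set A1 := ∫ t in Ioi (0 : ℝ), t ^ (1 : ℝ) * mf a T t with hA1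
  set Ah := ∫ t in Ioi (0 : ℝ), t ^ (1 / 2 : ℝ) * mf a T t with hAh
  set Am := ∫ t in Ioi (0 : ℝ), t ^ (-(1 / 2) : ℝ) * mf a T t with hAm
  have hA0pos : 0 < A0 := by
    rw [hA0, mfM55 hT (by norm_num)]
    apply Finset.sum_pos _ Finset.univ_nonempty
    intro i _
    have h1 : 0 < T i ^ (-((0 : ℝ) + 1) / 2) := rpow_pos_of_pos (hT i) _
    have h2 : 0 < Gamma (((0 : ℝ) + 1) / 2) := Gamma_pos_of_pos (by norm_num)
    have := ha i
    positivity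
  -- the parameter
  set c := √(A0 / (F0 * Gamma (5 / 3))) with hc
  have hcpos : 0 < c := sqrt_pos.2 (by positivity)
  have hc2 : A0 = F0 * (c ^ 2 * Gamma (5 / 3)) := by
    rw [hc, sq_sqrt (by positivity)]
    field_simp
  set B1 := F0 * (c ^ 4 * (2 / 3) * Gamma (4 / 3)) with hB1
  set Bm := F0 * (c * 2 * Gamma (4 / 3)) with hBm
  set Bh := F0 * (c ^ 3 * (2 / 3)) with hBh
  have hcmp : ∀ s : ℝ, 0 < s →
      s⁻¹ * A1 - s ^ (1 / 2 : ℝ) * Am - 3 * s ^ (-(1 / 2) : ℝ) * Ah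
      ≤ s⁻¹ * B1 - s ^ (1 / 2 : ℝ) * Bm - 3 * s ^ (-(1 / 2) : ℝ) * Bh :=
    fun s hs => cmp55 ha hT hmon hcpos hc2 hs
  -- averaging lemma
  have havg : ∀ (w : ℝ → ℝ) (Wm Wh Wn : ℝ), (∀ s, 0 < s → 0 ≤ w s) →
      IntegrableOn (fun s : ℝ => s ^ (-1 : ℝ) * w s) (Ioi 0) →
      IntegrableOn (fun s : ℝ => s ^ (1 / 2 : ℝ) * w s) (Ioi 0) →
      IntegrableOn (fun s : ℝ => s ^ (-(1 / 2) : ℝ) * w s) (Ioi 0) →
      (∫ s in Ioi (0 : ℝ), s ^ (-1 : ℝ) * w s = Wm) →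
      (∫ s in Ioi (0 : ℝ), s ^ (1 / 2 : ℝ) * w s = Wh) →
      (∫ s in Ioi (0 : ℝ), s ^ (-(1 / 2) : ℝ) * w s = Wn) →
      Wm * A1 - Wh * Am - 3 * Wn * Ah ≤ Wm * B1 - Wh * Bm - 3 * Wn * Bh := by
    intro w Wm Wh Wn hw i1 i2 i3 e1 e2 e3
    have key : ∀ P Q R : ℝ,
        IntegrableOn (fun s : ℝ => (s⁻¹ * P - s ^ (1 / 2 : ℝ) * Q - 3 * s ^ (-(1 / 2) : ℝ) * R) * w s)
          (Ioi 0) ∧
        ∫ s in Ioi (0 : ℝ), (s⁻¹ * P - s ^ (1 / 2 : ℝ) * Q - 3 * s ^ (-(1 / 2) : ℝ) * R) * w s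
          = Wm * P - Wh * Q - 3 * Wn * R := by
      intro P Q R
      have j1 : IntegrableOn (fun s : ℝ => P * (s ^ (-1 : ℝ) * w s)) (Ioi 0) := i1.const_mul P
      have j2 : IntegrableOn (fun s : ℝ => Q * (s ^ (1 / 2 : ℝ) * w s)) (Ioi 0) := i2.const_mul Q
      have j3 : IntegrableOn (fun s : ℝ => 3 * R * (s ^ (-(1 / 2) : ℝ) * w s)) (Ioi 0) :=
        i3.const_mul (3 * R)
      have e : (fun s : ℝ => (s⁻¹ * P - s ^ (1 / 2 : ℝ) * Q - 3 * s ^ (-(1 / 2) : ℝ) * R) * w s)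
          = fun s => (P * (s ^ (-1 : ℝ) * w s) - Q * (s ^ (1 / 2 : ℝ) * w s))
            - 3 * R * (s ^ (-(1 / 2) : ℝ) * w s) := by
        funext s
        rw [rpow_neg_one]
        ring
      rw [e]
      refine ⟨(j1.sub j2).sub j3, ?_⟩
      have s1 := integral_sub (j1.sub j2) j3
      have s2 := integral_sub j1 j2
      simp only [Pi.sub_apply] at s1
      rw [s1, s2, integral_const_mul, integral_const_mul, integral_const_mul, e1, e2, e3]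
      ring
    obtain ⟨k1, k2⟩ := key A1 Am Ah
    obtain ⟨k3, k4⟩ := key B1 Bm Bh
    rw [← k2, ← k4]
    apply setIntegral_mono_on k1 k3 measurableSet_Ioi
    intro s hs
    exact mul_le_mul_of_nonneg_right (hcmp s hs) (hw s hs)
  -- first average
  have w1 : ∫ s in Ioi (0 : ℝ), s ^ (-1 : ℝ) * mw a T s = 2 * F0 := mwm55 hT
  have w2 : ∫ s in Ioi (0 : ℝ), s ^ (1 / 2 : ℝ) * mw a T s = 3 * Ah := by
    rw [mwM55 hT (by norm_num)]; ring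
  have w3 : ∫ s in Ioi (0 : ℝ), s ^ (-(1 / 2) : ℝ) * mw a T s = Am := by
    rw [mwM55 hT (by norm_num)]; ring
  have w4 : ∫ s in Ioi (0 : ℝ), s ^ (1 : ℝ) * mw a T s = 4 * A1 := by
    rw [mwM55 hT (by norm_num)]; ring
  have w0 : ∫ s in Ioi (0 : ℝ), mw a T s = 2 * A0 := by
    have := mwM55 (a := a) hT (by norm_num : (-1 : ℝ) < 0)
    simp only [rpow_zero, one_mul, add_zero, mul_one] at this hA0
    rw [this, hA0]
  have hwpos : ∀ s, 0 < s → 0 ≤ mw a T s := fun s _ => by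
    have := (mg_pos55 ha hT s).le
    unfold mw
    positivity
  have ineq2 := havg (mw a T) (2 * F0) (3 * Ah) Am hwpos (mwI55 hT (by norm_num))
    (mwI55 hT (by norm_num)) (mwI55 hT (by norm_num)) w1 w2 w3
  -- second average
  have hgI : ∀ q : ℝ, -(5 / 2) < q → IntegrableOn
      (fun s : ℝ => s ^ q * (3 * (c ^ 3)⁻¹ * F0 *
        (s ^ (3 / 2 : ℝ) * exp (-(c ^ 3)⁻¹ * s ^ (3 / 2 : ℝ))))) (Ioi 0) := by
    intro q hq
    have h0 : IntegrableOn (fun s : ℝ => 3 * (c ^ 3)⁻¹ * F0 *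
        (s ^ (q + 3 / 2) * exp (-(c ^ 3)⁻¹ * s ^ (3 / 2 : ℝ)))) (Ioi 0) :=
      (momI55 (by positivity) (by linarith)).const_mul _
    refine h0.congr_fun (fun s hs => ?_) measurableSet_Ioi
    have hs : 0 < s := hs
    simp only
    rw [rpow_add hs]
    ring
  have hgM : ∀ q : ℝ, -(5 / 2) < q → ∫ s in Ioi (0 : ℝ), s ^ q * (3 * (c ^ 3)⁻¹ * F0 *
        (s ^ (3 / 2 : ℝ) * exp (-(c ^ 3)⁻¹ * s ^ (3 / 2 : ℝ))))
      = 3 * (c ^ 3)⁻¹ * F0 * (c ^ (2 * (q + 3 / 2 + 1)) * (2 / 3)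
        * Gamma ((q + 3 / 2 + 1) / (3 / 2))) := by
    intro q hq
    rw [← gB55 hcpos (by linarith), ← integral_const_mul]
    apply setIntegral_congr_fun measurableSet_Ioi
    intro s hs
    have hs : 0 < s := hs
    simp only
    rw [rpow_add hs]
    ring
  have v1 := hgM (-1) (by norm_num)
  have v2 := hgM (1 / 2) (by norm_num)
  have v3 := hgM (-(1 / 2)) (by norm_num)
  have p1 : (2 * (-1 + 3 / 2 + 1 : ℝ)) = ((3 : ℕ) : ℝ) := by norm_num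
  have p2 : (2 * (1 / 2 + 3 / 2 + 1 : ℝ)) = ((6 : ℕ) : ℝ) := by norm_num
  have p3 : (2 * (-(1 / 2) + 3 / 2 + 1 : ℝ)) = ((4 : ℕ) : ℝ) := by norm_num
  have q1 : (-1 + 3 / 2 + 1 : ℝ) / (3 / 2) = 1 := by norm_num
  have q2 : (1 / 2 + 3 / 2 + 1 : ℝ) / (3 / 2) = 2 := by norm_num
  have q3 : (-(1 / 2) + 3 / 2 + 1 : ℝ) / (3 / 2) = 4 / 3 := by norm_num
  rw [p1, q1, rpow_natCast, Gamma_one] at v1
  rw [p2, q2, rpow_natCast, Gamma_two] at v2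
  rw [p3, q3, rpow_natCast] at v3
  have v1' : 3 * (c ^ 3)⁻¹ * F0 * (c ^ 3 * (2 / 3) * 1) = 2 * F0 := by field_simp
  have v2' : 3 * (c ^ 3)⁻¹ * F0 * (c ^ 6 * (2 / 3) * 1) = 3 * Bh := by
    rw [hBh]; field_simp
  have v3' : 3 * (c ^ 3)⁻¹ * F0 * (c ^ 4 * (2 / 3) * Gamma (4 / 3)) = Bm := by
    rw [hBm]; field_simp
  rw [v1'] at v1
  rw [v2'] at v2
  rw [v3'] at v3
  have ineq3 := havg (fun s => 3 * (c ^ 3)⁻¹ * F0 *
        (s ^ (3 / 2 : ℝ) * exp (-(c ^ 3)⁻¹ * s ^ (3 / 2 : ℝ)))) (2 * F0) (3 * Bh) Bm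
    (fun s hs => by positivity) (hgI _ (by norm_num)) (hgI _ (by norm_num)) (hgI _ (by norm_num))
    v1 v2 v3
  rw [w0, w1, w2, w3, w4]
  have hfin : 16 * F0 * A1 - 24 * Ah * Am ≤ 16 * F0 * B1 - 24 * Bh * Bm := by nlinarith
  have hval : 16 * F0 * B1 - 24 * Bh * Bm
      = -(16 / 3 * (Gamma (4 / 3) / Gamma (5 / 3) ^ 2)) * (2 * A0) ^ 2 := by
    rw [hB1, hBh, hBm, hc2]
    field_simp
    ring
  nlinarith

end Pool.Agent.Helper55.GR
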