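import Pool.Agent.Helper75.GR.Stmts
import Pool.Agent.Helper55.GR.Law

/-!
# Facts on the marginal densities (modules FDP, LAW1)
-/

open Finset MeasureTheory Filter Topology Matrix
open scoped ENNReal ContDiff

namespace Pool.Agent.Helper75.GR

open Pool.Agent.Helper44.GF Pool.Agent.Helper44.GN Pool.Agent.Helper44.GH
open Pool.Agent.Helper55.GR

section FDPaux

variable {n m : ℕ} {Y : Type} [Fintype Y] [DecidableEq Y]

theorem fdp_tau55 {δ : ℝ} {r : Y → ℝ} (hδ : 0 < δ) (hr : ∀ y, 0 < r y)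
    (η : Finset (Fin n × Y)) : tau δ r η ∈ Og n := by
  intro x
  unfold tau
  have : 0 ≤ ∑ y, if (x, y) ∈ η then r y else 0 :=
    Finset.sum_nonneg fun y _ => by split_ifs; exacts [(hr y).le, le_refl _]
  linarith

variable {s ζ δ : ℝ} {r z : Y → ℝ} (V : Matrix (Fin n) (Fin m) ℝ)

theorem fdp_qf55 (hU : ST_UPD) (hM : GR.MD s ζ δ r z) (hV : Function.Injective V.mulVec)
    (i : Fin n) (η : Finset (Fin n × Y)) : 0 < qf V (tau δ r η) :=
  (hU n m V V hV _ (fdp_tau55 hM.d0 hM.r0 η) i 0 le_rfl).2.1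

theorem fdp_hh55 (hU : ST_UPD) (hM : GR.MD s ζ δ r z) (hV : Function.Injective V.mulVec)
    (i : Fin n) (hi : V i ≠ 0) (η : Finset (Fin n × Y)) : 0 < hh V (tau δ r η) i := by
  obtain ⟨-, -, h1, h2, -⟩ := hU n m V V hV _ (fdp_tau55 hM.d0 hM.r0 η) i 0 le_rfl
  exact lt_of_le_of_ne h1 fun h => hi (h2 h.symm)

theorem fdp_W155 (hU : ST_UPD) (hM : GR.MD s ζ δ r z) (hV : Function.Injective V.mulVec)
    (i : Fin n) (η : Finset (Fin n × Y)) : 0 < W1 V δ r z η :=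
  mul_pos (Finset.prod_pos fun x _ => hM.z0 x.2)
    (Real.rpow_pos_of_pos (fdp_qf55 V hU hM hV i η) _)

theorem fdp_MS55 (hU : ST_UPD) (hM : GR.MD s ζ δ r z) (hV : Function.Injective V.mulVec)
    (i : Fin n) : 0 < MS V δ r z :=
  Finset.sum_pos (fun η _ => fdp_W155 V hU hM hV i η) ⟨∅, Finset.mem_univ _⟩

/-- The weights of the mixture. -/
noncomputable def fda (V : Matrix (Fin n) (Fin m) ℝ) (δ : ℝ) (r z : Y → ℝ) (i : Fin n)
    (η : Finset (Fin n × Y)) : ℝ :=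
  W1 V δ r z η * (1 / √Real.pi * (hh V (tau δ r η) i) ^ (-(1 / 2) : ℝ)) / MS V δ r z

/-- The inverse variances of the mixture. -/
noncomputable def fdT (V : Matrix (Fin n) (Fin m) ℝ) (δ : ℝ) (r : Y → ℝ) (i : Fin n)
    (η : Finset (Fin n × Y)) : ℝ := (hh V (tau δ r η) i)⁻¹

theorem fd_mf55 (δ : ℝ) (r z : Y → ℝ) (i : Fin n) :
    fd V δ r z i = mf (fda V δ r z i) (fdT V δ r i) := by
  funext t
  unfold fd EX mf fda fdT
  rw [Finset.sum_div]
  refine Finset.sum_congr rfl fun η _ => ?_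
  rw [show (hh V (tau δ r η) i)⁻¹ * t ^ 2 = t ^ 2 / hh V (tau δ r η) i by ring]
  ring

theorem p3_mw55 (hU : ST_UPD) (hM : GR.MD s ζ δ r z) (hV : Function.Injective V.mulVec)
    (i : Fin n) (hi : V i ≠ 0) :
    p3 V δ r z i = mw (fda V δ r z i) (fdT V δ r i) := by
  funext t
  unfold p3 EX mw mg fda fdT
  rw [Finset.sum_div, Finset.mul_sum]
  refine Finset.sum_congr rfl fun η _ => ?_
  have h0 := fdp_hh55 V hU hM hV i hi η
  rw [show (hh V (tau δ r η) i)⁻¹ * t ^ 2 = t ^ 2 / hh V (tau δ r η) i by ring]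
  have h1 : (hh V (tau δ r η) i) ^ (-(3 / 2) : ℝ)
      = (hh V (tau δ r η) i) ^ (-(1 / 2) : ℝ) * (hh V (tau δ r η) i)⁻¹ := by
    rw [← Real.rpow_neg_one, ← Real.rpow_add h0]
    norm_num
  show W1 V δ r z η * (4 / √Real.pi * (hh V (tau δ r η) i) ^ (-(3 / 2) : ℝ) * t ^ 2
      * Real.exp (-(t ^ 2 / hh V (tau δ r η) i))) / MS V δ r z = _
  rw [h1]
  ring

end FDPaux

theorem st_FDP (hU : ST_UPD) : GR.ST_FDP := by
  intro n m Y _ _ s ζ δ r z V hM hV i hi
  have hMS := fdp_MS55 V hU hM hV i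
  have ha : ∀ η : Finset (Fin n × Y), 0 < fda V δ r z i η := by
    intro η
    have h1 := fdp_W155 V hU hM hV i η
    have h2 := Real.rpow_pos_of_pos (fdp_hh55 V hU hM hV i hi η) (-(1 / 2) : ℝ)
    have h3 : (0 : ℝ) < √Real.pi := Real.sqrt_pos.2 Real.pi_pos
    unfold fda
    positivity
  have hT : ∀ η : Finset (Fin n × Y), 0 < fdT V δ r i η := fun η =>
    inv_pos.2 (fdp_hh55 V hU hM hV i hi η)
  have hf := fd_mf55 V δ r z i
  have hp := p3_mw55 V hU hM hV i hi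
  rw [hf, hp]
  have hI0 : IntegrableOn (mf (fda V δ r z i) (fdT V δ r i)) (Set.Ioi 0) := by
    refine (mfI55 (a := fda V δ r z i) hT (by norm_num : (-1 : ℝ) < 0)).congr_fun
      (fun t _ => ?_) measurableSet_Ioi
    simp only [Real.rpow_zero, one_mul]
  have hhalf : ∫ t in Set.Ioi (0 : ℝ), mf (fda V δ r z i) (fdT V δ r i) t = 1 / 2 := by
    have h := mfM55 (a := fda V δ r z i) hT (by norm_num : (-1 : ℝ) < 0)
    simp only [Real.rpow_zero, one_mul] at h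
    rw [h]
    have e : ∀ η : Finset (Fin n × Y), fda V δ r z i η * (fdT V δ r i η ^ (-((0 : ℝ) + 1) / 2)
        * (1 / 2) * Real.Gamma ((0 + 1) / 2)) = 1 / 2 * (W1 V δ r z η / MS V δ r z) := by
      intro η
      have h0 := fdp_hh55 V hU hM hV i hi η
      have h3 : (0 : ℝ) < √Real.pi := Real.sqrt_pos.2 Real.pi_pos
      have h1 : ((0 : ℝ) + 1) / 2 = 1 / 2 := by norm_num
      have h2 : -((0 : ℝ) + 1) / 2 = -(1 / 2) := by norm_num
      rw [h1, h2, Real.Gamma_one_half_eq]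
      unfold fda fdT
      rw [Real.inv_rpow h0.le, Real.rpow_neg h0.le, inv_inv]
      have h4 : 0 < (hh V (tau δ r η) i) ^ (1 / 2 : ℝ) := Real.rpow_pos_of_pos h0 _
      field_simp
    rw [Finset.sum_congr rfl fun η _ => e η, ← Finset.mul_sum, ← Finset.sum_div]
    have h5 : ∑ η : Finset (Fin n × Y), W1 V δ r z η = MS V δ r z := rfl
    rw [h5, div_self hMS.ne', mul_one]
  refine ⟨fun t => mf_pos55 ha t, mf_cont55 _ _, fun t => mw_nn55 ha hT t, mw_cont55 _ _, ?_, ?_,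
    ?_, hI0, hhalf, ?_, fun q hq => mwI55 hT (by linarith), fun q hq => mfI55 hT hq⟩
  · unfold mw
    ring
  · intro t ht
    have h := mf_deriv55 (fda V δ r z i) (fdT V δ r i) t
    have e : -(2 * t * mg (fda V δ r z i) (fdT V δ r i) t)
        = -(mw (fda V δ r z i) (fdT V δ r i) t / (2 * t)) := by
      unfold mw
      field_simp
      ring
    rw [e] at h
    exact h
  · refine ⟨deriv (mw (fda V δ r z i) (fdT V δ r i)), fun t => ?_⟩
    apply DifferentiableAt.hasDerivAt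
    unfold mw mg
    fun_prop
  · have h := mwM55 (a := fda V δ r z i) hT (by norm_num : (-1 : ℝ) < 0)
    simp only [Real.rpow_zero, one_mul, add_zero, mul_one] at h
    rw [h, hhalf]
    norm_num

theorem st_LAW1 (hF : GR.ST_FDP) (hL : GR.ST_LAW0) (hG : GR.ST_GAM3) (hC : GR.ST_MCV)
    (hS : GR.ST_SLV) : GR.ST_LAW1 := by
  intro n m Y _ _ s ζ δ r z V hM hV i hi
  obtain ⟨f1, f2, p1, p2, -, f3, -, f4, f5, p5, p6, f6⟩ := hF n m Y s ζ δ r z V hM hV i hi
  obtain ⟨-, c2⟩ := hC n m Y s ζ δ r z V hM hV i hi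
  have hS' := hS Y s ζ δ r z hM
  have hcont : Continuous fun t : ℝ => ld δ r z (t ^ 2) := by
    rw [continuous_iff_continuousAt]
    intro t
    have h1 : ContinuousAt (ld δ r z) (t ^ 2) := (hS' (t ^ 2) (sq_nonneg t)).2.1.continuousAt
    have h2 : ContinuousAt (fun t : ℝ => t ^ 2) t := by fun_prop
    exact ContinuousAt.comp (f := fun t : ℝ => t ^ 2) (g := ld δ r z) h1 h2
  have h := hL (fd V δ r z i) (p3 V δ r z i) (fun t => ld δ r z (t ^ 2)) δ (ld δ r z 0)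
    (fun t _ => f1 t) f2.continuousOn f3 (fun t _ => p1 t) p2.continuousOn f4 f5 p6 f6 c2
    hcont.continuousOn hM.d0
    (fun t _ => ⟨(hS' (t ^ 2) (sq_nonneg t)).2.2.1, (hS' (t ^ 2) (sq_nonneg t)).2.2.2.1⟩)
    (fun t u ht htu => (hS' (t ^ 2) (sq_nonneg t)).2.2.2.2.2.2.2.2.1 (u ^ 2) (by nlinarith))
    (fun t u ht htu => (hS' t ht.le).2.2.2.2.2.2.2.2.2 u htu)
  refine h.trans ?_
  have hg : (108 / 100 : ℝ) ≤ Real.Gamma (4 / 3) / Real.Gamma (5 / 3) ^ 2 := hG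
  norm_num at hg ⊢
  linarith

end Pool.Agent.Helper75.GR
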