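import Pool.Agent.Helper55.GR.Law

set_option autoImplicit false

/-!
The two point bound for the law `mw`: iterated integrals.
-/

namespace Pool.Agent.Helper55.GR

open Real MeasureTheory Set

variable {ι : Type*} [Fintype ι]

theorem phi_le55 {r R : ℝ} (hr : 1 ≤ r) (hR : r ≤ R) :
    (r + r⁻¹ - 2) ^ 2 ≤ R ^ 2 + (R⁻¹) ^ 2 + 6 - 4 * R - 4 * R⁻¹ := by
  have hr0 : 0 < r := by linarith
  have hR0 : 0 < R := by linarith
  have h1 : R ^ 2 + (R⁻¹) ^ 2 + 6 - 4 * R - 4 * R⁻¹ = (R + R⁻¹ - 2) ^ 2 := by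
    field_simp
    ring
  rw [h1]
  have h2 : 0 ≤ r + r⁻¹ - 2 := by
    have : r + r⁻¹ - 2 = (r - 1) ^ 2 * r⁻¹ := by field_simp; ring
    rw [this]; positivity
  have h3 : r + r⁻¹ - 2 ≤ R + R⁻¹ - 2 := by
    have h4 : (R + R⁻¹ - 2) - (r + r⁻¹ - 2) = (R - r) * (R * r - 1) * (R⁻¹ * r⁻¹) := by
      field_simp
      ring
    have h5 : 0 ≤ (R - r) * (R * r - 1) * (R⁻¹ * r⁻¹) := by
      have h6 : 0 ≤ R - r := by linarith
      have h7 : 0 ≤ R * r - 1 := by nlinarith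
      positivity
    linarith
  exact pow_le_pow_left₀ h2 h3 2

/-- The bound of the integrand. -/
noncomputable def bd (s t : ℝ) : ℝ :=
  t * s⁻¹ + s * t⁻¹ + 6 - 4 * (t ^ (1 / 2 : ℝ) * s ^ (-(1 / 2) : ℝ))
    - 4 * (s ^ (1 / 2 : ℝ) * t ^ (-(1 / 2) : ℝ))

theorem bd_symm55 (s t : ℝ) : bd s t = bd t s := by
  unfold bd; ring

theorem law_pt55 [Nonempty ι] {a T : ι → ℝ} (ha : ∀ i, 0 < a i) (hT : ∀ i, 0 < T i)
    (hmon : ∀ s t : ℝ, 0 < s → s ≤ t →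
      s ^ (1 / 2 : ℝ) * my a T s ≤ t ^ (1 / 2 : ℝ) * my a T t)
    {s t : ℝ} (hs : 0 < s) (ht : 0 < t) :
    (my a T s / my a T t + my a T t / my a T s - 2) ^ 2 ≤ bd s t := by
  wlog hst : s ≤ t with H
  · have := H ha hT hmon ht hs (le_of_not_ge hst)
    rw [bd_symm55 s t]
    calc (my a T s / my a T t + my a T t / my a T s - 2) ^ 2
        = (my a T t / my a T s + my a T s / my a T t - 2) ^ 2 := by ring
      _ ≤ _ := this
  have hys := my_pos55 ha hT s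
  have hyt := my_pos55 ha hT t
  obtain ⟨hx, hxx, hxm⟩ := half55 hs
  obtain ⟨hy, hyy, hym⟩ := half55 ht
  have h1 : 1 ≤ my a T s / my a T t := by
    rw [le_div_iff₀ hyt, one_mul]
    exact my_anti55 ha hs.le hst
  have h2 : my a T s / my a T t ≤ t ^ (1 / 2 : ℝ) / s ^ (1 / 2 : ℝ) := by
    rw [div_le_div_iff₀ hyt hx]
    have := hmon s t hs hst
    linarith
  have h3 := phi_le55 h1 h2
  have h4 : (my a T s / my a T t)⁻¹ = my a T t / my a T s := inv_div _ _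
  rw [h4] at h3
  refine h3.trans (le_of_eq ?_)
  unfold bd
  rw [hxm, hym]
  have e1 : (t ^ (1 / 2 : ℝ) / s ^ (1 / 2 : ℝ)) ^ 2 = t * s⁻¹ := by
    rw [div_pow, pow_two, pow_two, ← hxx, ← hyy, div_eq_mul_inv]
  have e2 : ((t ^ (1 / 2 : ℝ) / s ^ (1 / 2 : ℝ))⁻¹) ^ 2 = s * t⁻¹ := by
    rw [inv_div, div_pow, pow_two, pow_two, ← hxx, ← hyy, div_eq_mul_inv]
  have e3 : t ^ (1 / 2 : ℝ) / s ^ (1 / 2 : ℝ) = t ^ (1 / 2 : ℝ) * (s ^ (1 / 2 : ℝ))⁻¹ :=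
    div_eq_mul_inv _ _
  have e4 : (t ^ (1 / 2 : ℝ) / s ^ (1 / 2 : ℝ))⁻¹ = s ^ (1 / 2 : ℝ) * (t ^ (1 / 2 : ℝ))⁻¹ := by
    rw [inv_div, div_eq_mul_inv]
  rw [e1, e2, e4, e3]

theorem my_cont55 [Nonempty ι] {a T : ι → ℝ} (ha : ∀ i, 0 < a i) : Continuous (my a T) :=
  (mg_cont55 a T).div (mf_cont55 a T) fun t => (mf_pos55 ha t).ne'

theorem mw_nonneg55 [Nonempty ι] {a T : ι → ℝ} (ha : ∀ i, 0 < a i) (hT : ∀ i, 0 < T i) (s : ℝ) :
    0 ≤ mw a T s := by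
  have := (mg_pos55 ha hT s).le
  unfold mw
  positivity

theorem mwI0_55 {a T : ι → ℝ} (hT : ∀ i, 0 < T i) : IntegrableOn (mw a T) (Ioi 0) := by
  refine (mwI55 (a := a) hT (by norm_num : (-3 : ℝ) < 0)).congr_fun (fun t _ => ?_)
    measurableSet_Ioi
  simp only [rpow_zero, one_mul]

/-- The inner integral of the bound. -/
theorem bd_inner55 {a T : ι → ℝ} (hT : ∀ i, 0 < T i) (t : ℝ) :
    IntegrableOn (fun s => bd s t * mw a T s) (Ioi 0) ∧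
    ∫ s in Ioi (0 : ℝ), bd s t * mw a T s
      = t ^ (1 : ℝ) * (∫ s in Ioi (0 : ℝ), s ^ (-1 : ℝ) * mw a T s)
        + t ^ (-1 : ℝ) * (∫ s in Ioi (0 : ℝ), s ^ (1 : ℝ) * mw a T s)
        + 6 * (∫ s in Ioi (0 : ℝ), mw a T s)
        - 4 * t ^ (1 / 2 : ℝ) * (∫ s in Ioi (0 : ℝ), s ^ (-(1 / 2) : ℝ) * mw a T s)
        - 4 * t ^ (-(1 / 2) : ℝ) * (∫ s in Ioi (0 : ℝ), s ^ (1 / 2 : ℝ) * mw a T s) := by
  have j1 : IntegrableOn (fun s : ℝ => t ^ (1 : ℝ) * (s ^ (-1 : ℝ) * mw a T s)) (Ioi 0) :=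
    (mwI55 hT (by norm_num)).const_mul _
  have j2 : IntegrableOn (fun s : ℝ => t ^ (-1 : ℝ) * (s ^ (1 : ℝ) * mw a T s)) (Ioi 0) :=
    (mwI55 hT (by norm_num)).const_mul _
  have j3 : IntegrableOn (fun s : ℝ => 6 * mw a T s) (Ioi 0) := (mwI0_55 hT).const_mul _
  have j4 : IntegrableOn (fun s : ℝ => 4 * t ^ (1 / 2 : ℝ) * (s ^ (-(1 / 2) : ℝ) * mw a T s))
      (Ioi 0) := (mwI55 hT (by norm_num)).const_mul _
  have j5 : IntegrableOn (fun s : ℝ => 4 * t ^ (-(1 / 2) : ℝ) * (s ^ (1 / 2 : ℝ) * mw a T s))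
      (Ioi 0) := (mwI55 hT (by norm_num)).const_mul _
  have e : (fun s => bd s t * mw a T s) = fun s =>
      (((t ^ (1 : ℝ) * (s ^ (-1 : ℝ) * mw a T s) + t ^ (-1 : ℝ) * (s ^ (1 : ℝ) * mw a T s))
        + 6 * mw a T s) - 4 * t ^ (1 / 2 : ℝ) * (s ^ (-(1 / 2) : ℝ) * mw a T s))
        - 4 * t ^ (-(1 / 2) : ℝ) * (s ^ (1 / 2 : ℝ) * mw a T s) := by
    funext s
    unfold bd
    rw [rpow_neg_one, rpow_neg_one, rpow_one, rpow_one]
    ring
  rw [e]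
  refine ⟨(((j1.add j2).add j3).sub j4).sub j5, ?_⟩
  have s1 := integral_sub (((j1.add j2).add j3).sub j4) j5
  have s2 := integral_sub ((j1.add j2).add j3) j4
  have s3 := integral_add (j1.add j2) j3
  have s4 := integral_add j1 j2
  simp only [Pi.sub_apply, Pi.add_apply] at s1 s2 s3
  rw [s1, s2, s3, s4, integral_const_mul, integral_const_mul, integral_const_mul,
    integral_const_mul, integral_const_mul]

/-- The two point bound. -/
theorem law55 [Nonempty ι] {a T : ι → ℝ} (ha : ∀ i, 0 < a i) (hT : ∀ i, 0 < T i)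
    (hmon : ∀ s t : ℝ, 0 < s → s ≤ t →
      s ^ (1 / 2 : ℝ) * my a T s ≤ t ^ (1 / 2 : ℝ) * my a T t) :
    ∫ t in Ioi (0 : ℝ), (∫ s in Ioi (0 : ℝ),
        (my a T s / my a T t + my a T t / my a T s - 2) ^ 2 * mw a T s) * mw a T t
      ≤ (6 - 16 / 3 * (Gamma (4 / 3) / Gamma (5 / 3) ^ 2))
        * (∫ t in Ioi (0 : ℝ), mw a T t) ^ 2 := by
  refine le_trans ?_ (momineq55 ha hT hmon)
  -- inner bound
  have hin : ∀ t, 0 < t → (∫ s in Ioi (0 : ℝ),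
      (my a T s / my a T t + my a T t / my a T s - 2) ^ 2 * mw a T s)
      ≤ ∫ s in Ioi (0 : ℝ), bd s t * mw a T s := by
    intro t ht
    apply integral_mono_of_nonneg
    · exact Filter.Eventually.of_forall fun s => mul_nonneg (sq_nonneg _) (mw_nonneg55 ha hT s)
    · exact (bd_inner55 hT t).1
    · filter_upwards [ae_restrict_mem measurableSet_Ioi] with s hs
      exact mul_le_mul_of_nonneg_right (law_pt55 ha hT hmon hs ht) (mw_nonneg55 ha hT s)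
  have j1 : IntegrableOn (fun t : ℝ => (∫ s in Ioi (0 : ℝ), s ^ (-1 : ℝ) * mw a T s)
      * (t ^ (1 : ℝ) * mw a T t)) (Ioi 0) := (mwI55 hT (by norm_num)).const_mul _
  have j2 : IntegrableOn (fun t : ℝ => (∫ s in Ioi (0 : ℝ), s ^ (1 : ℝ) * mw a T s)
      * (t ^ (-1 : ℝ) * mw a T t)) (Ioi 0) := (mwI55 hT (by norm_num)).const_mul _
  have j3 : IntegrableOn (fun t : ℝ => 6 * (∫ s in Ioi (0 : ℝ), mw a T s) * mw a T t) (Ioi 0) :=
    (mwI0_55 hT).const_mul _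
  have j4 : IntegrableOn (fun t : ℝ => 4 * (∫ s in Ioi (0 : ℝ), s ^ (-(1 / 2) : ℝ) * mw a T s)
      * (t ^ (1 / 2 : ℝ) * mw a T t)) (Ioi 0) := (mwI55 hT (by norm_num)).const_mul _
  have j5 : IntegrableOn (fun t : ℝ => 4 * (∫ s in Ioi (0 : ℝ), s ^ (1 / 2 : ℝ) * mw a T s)
      * (t ^ (-(1 / 2) : ℝ) * mw a T t)) (Ioi 0) := (mwI55 hT (by norm_num)).const_mul _
  have e : (fun t => (∫ s in Ioi (0 : ℝ), bd s t * mw a T s) * mw a T t) = fun t =>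
      ((((∫ s in Ioi (0 : ℝ), s ^ (-1 : ℝ) * mw a T s) * (t ^ (1 : ℝ) * mw a T t)
        + (∫ s in Ioi (0 : ℝ), s ^ (1 : ℝ) * mw a T s) * (t ^ (-1 : ℝ) * mw a T t))
        + 6 * (∫ s in Ioi (0 : ℝ), mw a T s) * mw a T t)
        - 4 * (∫ s in Ioi (0 : ℝ), s ^ (-(1 / 2) : ℝ) * mw a T s)
          * (t ^ (1 / 2 : ℝ) * mw a T t))
        - 4 * (∫ s in Ioi (0 : ℝ), s ^ (1 / 2 : ℝ) * mw a T s)
          * (t ^ (-(1 / 2) : ℝ) * mw a T t) := by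
    funext t
    rw [(bd_inner55 hT t).2]
    ring
  have hI : IntegrableOn (fun t => (∫ s in Ioi (0 : ℝ), bd s t * mw a T s) * mw a T t) (Ioi 0) := by
    rw [e]
    exact (((j1.add j2).add j3).sub j4).sub j5
  have hout : ∫ t in Ioi (0 : ℝ), (∫ s in Ioi (0 : ℝ),
        (my a T s / my a T t + my a T t / my a T s - 2) ^ 2 * mw a T s) * mw a T t
      ≤ ∫ t in Ioi (0 : ℝ), (∫ s in Ioi (0 : ℝ), bd s t * mw a T s) * mw a T t := by
    apply integral_mono_of_nonneg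
    · refine Filter.Eventually.of_forall fun t => mul_nonneg ?_ (mw_nonneg55 ha hT t)
      exact integral_nonneg fun s => mul_nonneg (sq_nonneg _) (mw_nonneg55 ha hT s)
    · exact hI
    · filter_upwards [ae_restrict_mem measurableSet_Ioi] with t ht
      exact mul_le_mul_of_nonneg_right (hin t ht) (mw_nonneg55 ha hT t)
  refine hout.trans (le_of_eq ?_)
  rw [e]
  have s1 := integral_sub (((j1.add j2).add j3).sub j4) j5
  have s2 := integral_sub ((j1.add j2).add j3) j4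
  have s3 := integral_add (j1.add j2) j3
  have s4 := integral_add j1 j2
  simp only [Pi.sub_apply, Pi.add_apply] at s1 s2 s3
  rw [s1, s2, s3, s4, integral_const_mul, integral_const_mul, integral_const_mul,
    integral_const_mul, integral_const_mul]
  ring

/-- Numerical form. -/
theorem law_num55 [Nonempty ι] {a T : ι → ℝ} (ha : ∀ i, 0 < a i) (hT : ∀ i, 0 < T i)
    (hmon : ∀ s t : ℝ, 0 < s → s ≤ t →
      s ^ (1 / 2 : ℝ) * my a T s ≤ t ^ (1 / 2 : ℝ) * my a T t) :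
    ∫ t in Ioi (0 : ℝ), (∫ s in Ioi (0 : ℝ),
        (my a T s / my a T t + my a T t / my a T s - 2) ^ 2 * mw a T s) * mw a T t
      ≤ (2971 / 10000) * (∫ t in Ioi (0 : ℝ), mw a T t) ^ 2 := by
  refine (law55 ha hT hmon).trans ?_
  apply mul_le_mul_of_nonneg_right _ (sq_nonneg _)
  have h := gam3_55
  have hG5 : 0 < Gamma (5 / 3 : ℝ) := Gamma_pos_of_pos (by norm_num)
  have h2 : (1.0693 : ℝ) ≤ Gamma (4 / 3) / Gamma (5 / 3) ^ 2 := by
    rw [le_div_iff₀ (by positivity)]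
    exact h
  norm_num at h2 ⊢
  linarith

end Pool.Agent.Helper55.GR
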